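import Pool.Agent.H504.MC.Raag
import Pool.Agent.H504.MC.LFun

/-!
# MP_148101_nt: L-functions of motives and representation varieties of right-angled Artin groups

For a finite graph `Γ` let `A_Γ` be the right-angled Artin group (a generator for every vertex, and the
generators of adjacent vertices commute), and let `H_{2d+1}` be the Heisenberg group of dimension
`2 d + 1`. The variety `Hom (A_Γ, H_{2d+1})` is defined over `ℤ` by bilinear equations.

**Theorem.** 1. The classes of the varieties `Hom (A_Γ, H_{2d+1})`, for all finite graphs `Γ` and a fixed
`d`, generate the Grothendieck group of varieties, after inverting the class `L` of the line and the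
`L ^ j - 1`, `j ≥ 1`, if and only if `d ≥ 2`. (This is stated for arbitrary motivic measures, on constructible
sets over `ℤ`.) For `d = 1` only Tate motives occur in their virtual motives.

2. The question (meromorphic continuation for all motives over `ℚ`, holomorphic continuation in odd
weights and in even weights `w` without Galois invariants in `M(w / 2)`) has a positive answer for all
motives over `ℚ` if and only if it has a positive answer for the simple motives that occur in the virtual
motives of the varieties `Hom (A_Γ, H_5)`.

3. The L-functions `L_w(X, s)` of all weights `w` of all constructible sets `X` over `ℤ` have meromorphic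
continuations (for smooth projective `X` over `ℚ` these are the L-functions of the `H^w(X)`) if and only if
this is true for the varieties `X = Hom (A_Γ, H_5)`.

Proof. Commuting elements of the Heisenberg group are vectors in a symplectic space that are orthogonal
to each other. Bases of the symplectic space make it possible to prescribe zeros of coordinates, and von
Staudt's constructions in the projective plane can be written with orthogonality relations between vectors
with prescribed zeros. The set of virtual motives for which the L-functions of all weights have meromorphic
continuations is a group stable under Tate twists and under division by `L ^ j - 1`.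
-/

set_option autoImplicit false

namespace Pool.Agent.Results.MP_148101_nt.ArtinGroupRepresentations

open Pool.Agent.H504.MC

theorem result :
    (∀ d : ℕ, Generates (RaagFamily d) ↔ 2 ≤ d) ∧
    (∀ (Sim : Type) (𝓜 : Motives Sim), 𝓜.OnlyTate (RaagFamily 1)) ∧
    ∀ (Sim : Type) (𝓜 : Motives Sim) (D : GaloisData 𝓜),
      ((∀ M : Sim →₀ ℕ, D.Conjecture M) ↔
        ∀ (ι : Type) [Finite ι] (φ : Form ι) (X : Cond ι), RaagFamily 2 ι X → Rep φ X →
          ∀ M : Sim, 𝓜.h.μ ι φ M ≠ 0 → D.Conjecture (Finsupp.single M 1)) ∧
      ((∀ (ι : Type) [Finite ι] (φ : Form ι), D.Mero (𝓜.h.μ ι φ)) ↔
        ∀ (ι : Type) [Finite ι] (φ : Form ι) (X : Cond ι), RaagFamily 2 ι X → Rep φ X →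
          D.Mero (𝓜.h.μ ι φ)) :=
  ⟨generates_raag_iff, fun _ 𝓜 => onlyTate (tate_raag le_rfl) 𝓜,
    fun _ _ D => ⟨D.conjecture_iff (generates_raag le_rfl), D.mero_iff (generates_raag le_rfl)⟩⟩

end Pool.Agent.Results.MP_148101_nt.ArtinGroupRepresentations
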