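import Mathlib
import Pool.Agent.H511.Cm.Pc
import Pool.Agent.H511.Ex.Tw6
import Pool.Graph.R_seed8.W353.PV.Eig

/-!
# Almost all twists of potentially CM motives: no poles and no zeros away from the central line

Let `F` be a number field. The motives over `F` which are of CM type over some extension field of `F`
(all abelian varieties over `F` with potential complex multiplication and the motives in their
cohomology, Fermat hypersurfaces and all their forms, Artin motives, ...) have the cohomology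
`⨁_j Ind_{E_j}^F (ψ_j ⊗ ρ_j)` with extension fields `E_j`, Hecke characters `ψ_j` of `E_j` of arbitrary
infinity type, and Artin representations `ρ_j` of `E_j`. Their L-functions are meromorphic by the
theorems of Hecke, Artin and Brauer, but it is not known that they have no poles (unless all `ρ_j`
are induced from characters, or in a few other cases).

We prove that for all motives `M` of this kind and for all but very few primitive Dirichlet characters
`ξ` the function `L(M ⊗ ξ, s)` has neither poles nor zeros away from the central line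
`Re s = (i + 1)/2`. Nothing is assumed. There are about `Q ^ 2` primitive characters `ξ` of conductor at
most `Q`; suppose that the groups `G_j` of the Galois extensions `L_j/E_j` through which the `ρ_j` factor
have abelian subgroups of index `n_j` and that `n_j [E_j : ℚ] ≤ m`. For `δ > max (1/2 - 2/m) 0` there is
a `κ > 0` such that for all but `O ((1 + T) ^ (2 m + 1) Q ^ (2 - κ))` of the `ξ` of conductor at most `Q`
the function `L(M ⊗ ξ, s)` has no zeros and poles with `Re s > i/2`, `|Im s| ≤ T`,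
`|Re s - (i + 1)/2| ≥ δ`; and if `m ≤ 4`, for all but `O (Q ^ 2 / (log Q) ^ k)` of the `ξ` all zeros and
poles with `Re s > i/2` satisfy `|Re s - (i + 1)/2| ≤ K (log log Q + log |Im s|) / log Q` (the square
root of this for `m = 4`). In place of the abelian subgroups we use the weakest hypothesis with which
the proof works, `Detects G_j n_j`. For `ψ_j = 1` this is the theorem `AlmostAllTwists` on the
Artin L-functions (`MP_d2121a_nt`).

Proof. For a linear character `λ` of a subgroup `H` of `G_j`, the twists of the L-function of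
`ψ_j ⊗ Ind λ` are, by Artin's reciprocity law, the twists of the L-function of a Hecke character of an
extension field, with the infinity type of `ψ_j`. We show that these twists satisfy the functional
equations and the density theorem (`Cm.Prm`: every Hecke character of any type is induced by a primitive
one, and the twists of a primitive one are primitive; `Cm.FamH`: the large sieve density theorem
`Pool.Agent.R399.TW` for these families). If those with `[G_j : H] ≤ n_j` have no zero at `s`, the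
function of Heilbronn for the orders at `s` of the functions `L(s, ψ_j ⊗ χ ⊗ ξ)`, `χ ∈ Irr G_j`, is zero,
so all of them are holomorphic and not zero at `s` (`Cm.Tww`).
-/

set_option autoImplicit false

open NumberField IsDedekindDomain Pool.Agent.H541R3.ART Pool.Agent.Q92.AR

namespace Pool.Agent.Results.MP_148101_nt.PotentiallyCMMotives

/-! ### Varieties -/

section variety

variable {K : Type} [Field K] {l : ℕ}

/-- The set `X` of homogeneous polynomials over `𝓞_K` in `l` variables gives a projective variety over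
`K`.  For a field `κ` with `q` elements and a homomorphism `𝓞_K → κ` this is `(q - 1)` times the number
of the points of `X` with coordinates in `κ`: the number of the nonzero solutions of the equations. -/
noncomputable def cone (X : Set (MvPolynomial (Fin l) (𝓞 K))) {κ : Type} [Field κ]
    (φ : 𝓞 K →+* κ) : ℕ :=
  Nat.card {u : Fin l → κ // u ≠ 0 ∧ ∀ f ∈ X, MvPolynomial.eval₂ φ u f = 0}

/-- The elements of the finite multiset `A` are the eigenvalues of the geometric Frobenius at the prime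
`v` of `K` on `H^i(X)`, for a variety `X` of dimension `d`: there are finite multisets `β_k` of complex
numbers of absolute value `q_v^{k/2}`, `k = 0, …, 2d`, with `β_i = A`, such that for every finite
extension `κ` of the residue field of `v`, of degree `e`, the number of the points of `X` with
coordinates in `κ` is `∑ (-1)^k ∑_{z ∈ β_k} z^e`.  By the theorem of Deligne such `β_k` exist at almost
all primes if `X` is smooth, and `β_i` has as many elements as the `i`-th Betti number of `X`; they are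
unique. -/
def Eigenvalues (X : Set (MvPolynomial (Fin l) (𝓞 K))) [NumberField K] (d i : ℕ)
    (v : HeightOneSpectrum (𝓞 K)) (A : Multiset ℂ) : Prop :=
  ∃ β : ℕ → Multiset ℂ, β i = A ∧
    (∀ k, ∀ z ∈ β k, ‖z‖ = (Ideal.absNorm v.asIdeal : ℝ) ^ ((k : ℝ) / 2)) ∧
    ∀ (κ : Type) [Field κ] [Finite κ] (φ : 𝓞 K →+* κ) (e : ℕ), RingHom.ker φ = v.asIdeal →
      Nat.card κ = Ideal.absNorm v.asIdeal ^ e →
      (cone X φ : ℂ) = ((Ideal.absNorm v.asIdeal : ℂ) ^ e - 1) *
        ∑ k ∈ Finset.range (2 * d + 1), (-1 : ℂ) ^ k * ((β k).map (fun z => z ^ e)).sum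

end variety

/-! ### Hecke characters -/

section chars

variable {E : Type} [Field E] [NumberField E]

/-- `x` is totally positive -/
def TotPos (x : 𝓞 E) : Prop := ∀ τ : E →+* ℝ, 0 < τ (x : E)

/-- the archimedean part `∏_φ (φ(x)/|φ(x)|)^(n_φ)` of a unitary Hecke character -/
noncomputable def phase (n : (E →+* ℂ) → ℤ) (x : E) : ℂ :=
  ∏ φ : E →+* ℂ, (φ x / (‖φ x‖ : ℂ)) ^ n φ

/-- `ψ` is a (not necessarily primitive) unitary Hecke character of `E` modulo `𝔪` of infinity type `n`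
(with arbitrary signs at the real places), as a function on the ideals, zero if not prime to `𝔪` -/
structure IsHeckeChar (𝔪 : Ideal (𝓞 E)) (n : (E →+* ℂ) → ℤ) (ψ : Ideal (𝓞 E) →*₀ ℂ) : Prop where
  ne_bot : 𝔪 ≠ ⊥
  supp : ∀ 𝔞 : Ideal (𝓞 E), 𝔞 ≠ ⊥ → (ψ 𝔞 ≠ 0 ↔ IsCoprime 𝔞 𝔪)
  unit : ∀ 𝔞 : Ideal (𝓞 E), ψ 𝔞 ≠ 0 → ‖ψ 𝔞‖ = 1
  ray : ∀ x : 𝓞 E, x ≠ 0 → x - 1 ∈ 𝔪 → TotPos x → ψ (Ideal.span {x}) = phase n (x : E)

end chars

/-! ### The motives -/

/-- The data of `Ind_E^F (ψ ⊗ ρ)`: an extension field `E` of `F`, a Galois extension `L` of `E`, a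
unitary Hecke character `ψ` of `E` (so that `N^{i/2} ψ` is of weight `i`) and a complex representation
`ρ` of the group of `L/E`. The condition `hodge` on the infinity type says that the Hodge numbers of
`ψ` are at `(n_φ, n_φ')`, `n_φ + n_φ' = i`, for the pairs `φ, φ'` of conjugate embeddings of `E`. -/
structure Piece (F : Type) [Field F] [NumberField F] (i : ℕ) where
  /-- the extension field -/
  E : Type
  [fieldE : Field E]
  [numE : NumberField E]
  [algE : Algebra F E]
  /-- the Galois extension of `E` -/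
  L : Type
  [fieldL : Field L]
  [numL : NumberField L]
  [algL : Algebra E L]
  [galL : IsGalois E L]
  /-- a modulus of the Hecke character -/
  modulus : Ideal (𝓞 E)
  /-- the infinity type -/
  type : (E →+* ℂ) → ℤ
  /-- the Hecke character -/
  char : Ideal (𝓞 E) →*₀ ℂ
  /-- the dimension of the representation -/
  dim : ℕ
  /-- the representation of the group of `L/E` -/
  rep : Representation ℂ (L ≃ₐ[E] L) (Fin dim → ℂ)
  isHecke : IsHeckeChar modulus type char
  hodge : ∀ φ : E →+* ℂ, type φ + type (ComplexEmbedding.conjugate φ) = i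

attribute [instance] Piece.fieldE Piece.numE Piece.algE Piece.fieldL Piece.numL Piece.algL Piece.galL

/-- A motive `M = ⨁_j Ind_{E_j}^F (ψ_j ⊗ ρ_j)` of weight `i` over the number field `F`. -/
structure Motive (F : Type) [Field F] [NumberField F] (i : ℕ) where
  /-- the number of the summands -/
  num : ℕ
  /-- the summands -/
  piece : Fin num → Piece F i

section
variable {E L : Type} [Field E] [NumberField E] [Field L] [NumberField L] [Algebra E L]

/-- `∏ (1 - x α z)` over the eigenvalues `α` of `ρ(Frob_w)` -/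
noncomputable def frobFac {d : ℕ} (ρ : Representation ℂ (L ≃ₐ[E] L) (Fin d → ℂ))
    (w : HeightOneSpectrum (𝓞 E)) (x z : ℂ) : ℂ :=
  ((ρ (frob L w)).charpoly.roots.map fun α => 1 - x * α * z).prod

/-- the value `q_w^{i/2} ψ(w)` of the Hecke character `N^{i/2} ψ` of weight `i` at the prime `w` -/
noncomputable def heckeVal (i : ℕ) (ψ : Ideal (𝓞 E) →*₀ ℂ) (w : HeightOneSpectrum (𝓞 E)) : ℂ :=
  (Ideal.absNorm w.asIdeal : ℂ) ^ ((i : ℂ) / 2) * ψ w.asIdeal

variable {F : Type} [Field F] [NumberField F] [Algebra F E]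

/-- the primes of `E` above the prime `v` of `F` -/
def above (E : Type) [Field E] [NumberField E] [Algebra F E] (v : HeightOneSpectrum (𝓞 F)) :
    Set (HeightOneSpectrum (𝓞 E)) := {w | w.under (𝓞 F) = v}

/-- the residue degree over `F` of a prime of `E` -/
noncomputable def resDeg (F : Type) [Field F] [NumberField F] [Algebra F E]
    (w : HeightOneSpectrum (𝓞 E)) : ℕ :=
  Ideal.inertiaDeg' (w.under (𝓞 F)).asIdeal w.asIdeal

end

section
variable {F : Type} [Field F] [NumberField F] {i : ℕ}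

/-- The Euler factor of `ψ ⊗ ρ` at the prime `w` of `E`, which is the inverse of
`P_w(z) = ∏ (1 - q_w^{i/2} ψ(w) α z)` over the eigenvalues `α` of `ρ(Frob_w)`, `z = q_w^{-s}`. -/
noncomputable def Piece.fac (P : Piece F i) (w : HeightOneSpectrum (𝓞 P.E)) (z : ℂ) : ℂ :=
  frobFac P.rep w (heckeVal i P.char w) z

/-- The Euler factor of `Ind_E^F (ψ ⊗ ρ)` at the prime `v` of `F`, which is the inverse of the
product of the `P_w(z ^ f_w)` over all primes `w` of `E` above `v`, with the residue degrees `f_w`,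
`z = q_v^{-s}` (this is the right factor at almost all primes). -/
noncomputable def Piece.indFac (P : Piece F i) (v : HeightOneSpectrum (𝓞 F)) (z : ℂ) : ℂ :=
  ∏ᶠ w ∈ above P.E v, P.fac w (z ^ resDeg F w)

/-- The Euler factor of `M` at the prime `v` of `F`: the inverse of this product, `z = q_v^{-s}`. -/
noncomputable def Motive.fac (M : Motive F i) (v : HeightOneSpectrum (𝓞 F)) (z : ℂ) : ℂ :=
  ∏ j, (M.piece j).indFac v z

/-- all zeros of the polynomials `B v` are of absolute value at least `q_v^{-i/2}` -/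
def Weights (i : ℕ) (B : HeightOneSpectrum (𝓞 F) → Polynomial ℂ) : Prop :=
  ∀ v, ∀ z : ℂ, (B v).eval z = 0 → (Ideal.absNorm v.asIdeal : ℝ) ^ (-((i : ℝ) / 2)) ≤ ‖z‖

/-- The polynomials `B v` define the Euler factors `1 / B_v(q_v^{-s})` of the L-function of `M`: the
right ones at almost all primes `v`, and arbitrary ones of weights at most `i` at the other primes. -/
structure Motive.IsEulerSystem (M : Motive F i) (B : HeightOneSpectrum (𝓞 F) → Polynomial ℂ) :
    Prop where
  good : ∃ S : Finset (HeightOneSpectrum (𝓞 F)), ∀ v ∉ S, ∀ z : ℂ, (B v).eval z = M.fac v z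
  weights : Weights i B

/-- `M` is the cohomology `H^i(X)` of the projective variety `X` over `F` of dimension `d`: at almost all
primes the eigenvalues of the Frobenius are the same. -/
def Motive.IsCohomology (M : Motive F i) {l : ℕ} (X : Set (MvPolynomial (Fin l) (𝓞 F))) (d : ℕ) :
    Prop :=
  ∃ S : Finset (HeightOneSpectrum (𝓞 F)), ∀ v ∉ S, ∃ A : Multiset ℂ, Eigenvalues X d i v A ∧
    ∀ z : ℂ, (A.map fun α => 1 - α * z).prod = M.fac v z

/-- The polynomials `B v` define the Euler factors `1 / B_v(q_v^{-s})` of `L(H^i(X), s)`: at almost all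
primes `v` the polynomial `B_v(z)` is the product of the `1 - α z` for the eigenvalues `α` of the
Frobenius on `H^i(X)`; at the other primes it is an arbitrary polynomial of weights at most `i`. -/
structure IsEulerSystemOf {l : ℕ} (X : Set (MvPolynomial (Fin l) (𝓞 F))) (d i : ℕ)
    (B : HeightOneSpectrum (𝓞 F) → Polynomial ℂ) : Prop where
  good : ∃ S : Finset (HeightOneSpectrum (𝓞 F)), ∀ v ∉ S, ∃ A : Multiset ℂ,
    Eigenvalues X d i v A ∧ ∀ z : ℂ, (B v).eval z = (A.map fun α => 1 - α * z).prod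
  weights : Weights i B

/-- `Λ` is the L-function `∏_v B_v(ξ(N v) q_v^{-s})⁻¹` of the twist by `ξ`: it is meromorphic in the
plane and equal to the product for `Re s > i/2 + 1`. -/
def IsTwistedL (i : ℕ) (B : HeightOneSpectrum (𝓞 F) → Polynomial ℂ) {q : ℕ}
    (ξ : DirichletCharacter ℂ q) (Λ : ℂ → ℂ) : Prop :=
  MeromorphicOn Λ Set.univ ∧ ∀ s : ℂ, (i : ℝ) / 2 + 1 < s.re →
    HasProd (fun v => ((B v).eval (ξ ((Ideal.absNorm v.asIdeal : ℕ) : ZMod q) *
      (Ideal.absNorm v.asIdeal : ℂ) ^ (-s)))⁻¹) (Λ s)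

end

/-! ### The regions -/

/-- `Λ` is holomorphic and not zero at all points `s` of `U` with `Re s > i/2`. -/
def Regular (i : ℕ) (Λ : ℂ → ℂ) (U : Set ℂ) : Prop :=
  ∀ s ∈ U, (i : ℝ) / 2 < s.re → AnalyticAt ℂ Λ s ∧ Λ s ≠ 0

/-- The points `s` with `|Im s| ≤ T` at distance at least `δ` from the central line. -/
def far (i : ℕ) (δ T : ℝ) : Set ℂ := {s | |s.im| ≤ T ∧ δ ≤ |s.re - ((i : ℝ) + 1) / 2|}

/-- The points `s` with
`K (log (1 + log Q) + log (2 + |Im s|)) < |Re s - (i + 1)/2| ^ a log Q`. -/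
def off (i a : ℕ) (K : ℝ) (Q : ℕ) : Set ℂ :=
  {s | K * (Real.log (1 + Real.log Q) + Real.log (2 + |s.im|)) <
    |s.re - ((i : ℝ) + 1) / 2| ^ a * Real.log Q}

/-! ### Counting characters -/

/-- the number of the primitive Dirichlet characters `ξ` of conductor `q`, `2 ≤ q ≤ Q`, `q` prime to
`N`, with the property `S q ξ` -/
noncomputable def count (N Q : ℕ) (S : (q : ℕ) → DirichletCharacter ℂ q → Prop) : ℕ :=
  ∑ q ∈ (Finset.Icc 2 Q).filter (fun q => Nat.Coprime q N),
    {ξ : DirichletCharacter ℂ q | ξ.IsPrimitive ∧ S q ξ}.ncard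

/-- the number of the primitive Dirichlet characters `ξ` modulo `q` with the property `S ξ` -/
noncomputable def countOne (q : ℕ) (S : DirichletCharacter ℂ q → Prop) : ℕ :=
  {ξ : DirichletCharacter ℂ q | ξ.IsPrimitive ∧ S ξ}.ncard

/-- the exponent: it is less than `2` for `m ≤ 4`, `δ > 0`, and for `m ≥ 4`, `δ > 1/2 - 2/m` -/
noncomputable def expo (m : ℕ) (δ : ℝ) : ℝ :=
  if m ≤ 3 then 2 * (1 - 2 * δ) * (3 + (m + 1) * δ) / (3 - δ)
  else 2 * (1 - 2 * δ) * (5 + 2 * m * δ) / (5 - 2 * δ)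

/-- The estimates for the numbers of the exceptional `ξ`. -/
def FewExceptions (i m N : ℕ) (Λ : (q : ℕ) → DirichletCharacter ℂ q → ℂ → ℂ) : Prop :=
  (∃ C B : ℝ, ∀ (Q : ℕ) (δ T : ℝ), 1 ≤ Q → 0 ≤ δ → δ ≤ 1 / 2 → 0 ≤ T →
    (count N Q (fun q ξ => ¬ Regular i (Λ q ξ) (far i δ T)) : ℝ) ≤
      C * (1 + T) ^ (2 * m + 1) * (1 + Real.log Q) ^ B * (Q : ℝ) ^ (expo m δ)) ∧
  (∀ δ : ℝ, 0 < δ → 1 / 2 - 2 / (m : ℝ) < δ → ∃ C κ : ℝ, 0 < κ ∧
    ∀ (Q : ℕ) (T : ℝ), 1 ≤ Q → 0 ≤ T →
      (count N Q (fun q ξ => ¬ Regular i (Λ q ξ) (far i δ T)) : ℝ) ≤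
        C * (1 + T) ^ (2 * m + 1) * (Q : ℝ) ^ (2 - κ)) ∧
  (m ≤ 4 → ∀ k : ℝ, ∃ K : ℝ, ∀ Q : ℕ, 1 ≤ Q →
    (count N Q (fun q ξ => ¬ Regular i (Λ q ξ) (off i (if m ≤ 3 then 1 else 2) K Q)) : ℝ) ≤
      K * (Q : ℝ) ^ 2 / (1 + Real.log Q) ^ k) ∧
  (∀ δ : ℝ, 0 < δ → 1 / 2 - 1 / (m : ℝ) < δ → ∃ C κ : ℝ, 0 < κ ∧
    ∀ (q : ℕ) (T : ℝ), 2 ≤ q → Nat.Coprime q N → 0 ≤ T →
      (countOne q (fun ξ => ¬ Regular i (Λ q ξ) (far i δ T)) : ℝ) ≤
        C * (1 + T) ^ (2 * m + 1) * (q : ℝ) ^ (1 - κ))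

/-- The conclusion: the twisted L-functions exist and there are few exceptions. -/
def Holds {F : Type} [Field F] [NumberField F] (i m N : ℕ)
    (B : HeightOneSpectrum (𝓞 F) → Polynomial ℂ) : Prop :=
  ∃ Λ : (q : ℕ) → DirichletCharacter ℂ q → ℂ → ℂ,
    (∀ (q : ℕ) (ξ : DirichletCharacter ℂ q), 2 ≤ q → Nat.Coprime q N → ξ.IsPrimitive →
      IsTwistedL i B ξ (Λ q ξ)) ∧ FewExceptions i m N Λ

/-! ### The hypothesis on the groups -/

/-- A class function `θ` on `G` is positive if the multiplicity of every linear character `ψ` of every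
subgroup `H` of `G` in the restriction of `θ` to `H` is a natural number. -/
structure Positive {G : Type} [Group G] (θ : G → ℂ) : Prop where
  conj : ∀ g h : G, θ (h * g * h⁻¹) = θ g
  mult : ∀ (H : Subgroup G) (ψ : H →* ℂˣ), ∃ k : ℕ,
    ∑ᶠ h : H, θ h * (((ψ h)⁻¹ : ℂˣ) : ℂ) = (k : ℂ) * (Nat.card H : ℂ)

/-- A positive class function on `G` is zero if the multiplicities of the linear characters of the
subgroups of index at most `n` are zero. -/
def Detects (G : Type) [Group G] (n : ℕ) : Prop :=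
  ∀ θ : G → ℂ, Positive θ → (∀ (H : Subgroup G) (ψ : H →* ℂˣ), H.index ≤ n →
    ∑ᶠ h : H, θ h * (((ψ h)⁻¹ : ℂˣ) : ℂ) = 0) → ∀ g, θ g = 0

/-- There is an `n` with `Detects G n` for the group `G` of `L/E`, and with `n [E : ℚ] ≤ m`. -/
def Piece.Within {F : Type} [Field F] [NumberField F] {i : ℕ} (P : Piece F i) (m : ℕ) : Prop :=
  ∃ n, Detects (P.L ≃ₐ[P.E] P.L) n ∧ n * Module.finrank ℚ P.E ≤ m

/-! ### Proofs -/

theorem heilbronn_iff {G : Type} [Group G] {θ : G → ℂ} :
    Positive θ ↔ Pool.Agent.H302R2.IsHeilbronn θ :=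
  ⟨fun h => ⟨h.conj, h.mult⟩, fun h => ⟨h.conj, h.mult⟩⟩

theorem detects_iff {G : Type} [Group G] {n : ℕ} : Detects G n ↔ Pool.Agent.H511.Ex.Detects G n :=
  ⟨fun h θ hθ => h θ (heilbronn_iff.2 hθ), fun h θ hθ => h θ (heilbronn_iff.1 hθ)⟩

theorem IsHeckeChar.isHecke {E : Type} [Field E] [NumberField E] {𝔪 : Ideal (𝓞 E)}
    {n : (E →+* ℂ) → ℤ} {ψ : Ideal (𝓞 E) →*₀ ℂ}
    (h : IsHeckeChar 𝔪 n ψ) : Pool.Agent.N172.HS.IsHecke 𝔪 n 0 ψ where
  ne_bot := h.ne_bot
  supp := h.supp
  unit := h.unit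
  ray x hx hx1 hx2 := by
    rw [h.ray x hx hx1 hx2]
    unfold phase Pool.Agent.N172.HS.arch
    refine Finset.prod_congr rfl fun φ _ => ?_
    simp

/-- the eigenvalues are unique -/
theorem eigenvalues_unique {K : Type} [Field K] [NumberField K] {l d i : ℕ}
    {X : Set (MvPolynomial (Fin l) (𝓞 K))} (hi : i ≤ 2 * d) {v : HeightOneSpectrum (𝓞 K)}
    {A A' : Multiset ℂ} (h : Eigenvalues X d i v A) (h' : Eigenvalues X d i v A') : A = A' := by
  obtain ⟨β, h1, h2, h3⟩ := h
  obtain ⟨β', h1', h2', h3'⟩ := h'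
  rw [← h1, ← h1']
  refine Pool.Agent.W353.PV.mult_unique (D := 2 * d + 1) (Pool.Agent.W353.PV.one_lt_norm v) h2 h2'
    (fun e he => ?_) (by omega)
  obtain ⟨κ, _, _, φ, hk, hc⟩ := Pool.Agent.W353.PV.exists_ext v e he
  have e1 := h3 κ φ e hk hc
  rw [h3' κ φ e hk hc] at e1
  refine (mul_left_cancel₀ ?_ e1).symm
  have h4 : (1 : ℝ) < (Ideal.absNorm v.asIdeal : ℝ) ^ e :=
    one_lt_pow₀ (Pool.Agent.W353.PV.one_lt_norm v) (by omega)
  intro h5
  have h6 : ((Ideal.absNorm v.asIdeal : ℂ) ^ e) = 1 := sub_eq_zero.1 h5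
  have h7 : ((Ideal.absNorm v.asIdeal : ℝ) ^ e) = 1 := by exact_mod_cast h6
  linarith

theorem half_re (i : ℕ) : ((i : ℂ) / 2).re = (i : ℝ) / 2 := by
  have : ((i : ℂ) / 2) = (((i : ℝ) / 2 : ℝ) : ℂ) := by push_cast; rfl
  rw [this, Complex.ofReal_re]

theorem half_im (i : ℕ) : ((i : ℂ) / 2).im = 0 := by
  have : ((i : ℂ) / 2) = (((i : ℝ) / 2 : ℝ) : ℂ) := by push_cast; rfl
  rw [this, Complex.ofReal_im]

section
variable {F : Type} [Field F] [NumberField F] {i : ℕ}

theorem norm_ne (v : HeightOneSpectrum (𝓞 F)) : (Ideal.absNorm v.asIdeal : ℂ) ≠ 0 :=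
  Pool.Agent.H511.Cm.nm_ne v

/-- the factors of the twists -/
theorem fac_twist (M : Motive F i) {q : ℕ} (ξ : DirichletCharacter ℂ q)
    {v : HeightOneSpectrum (𝓞 F)} (hv : ∀ j, ∀ w : HeightOneSpectrum (𝓞 (M.piece j).E),
      w.under (𝓞 F) = v → Unramified (M.piece j).L w) (s : ℂ) :
    M.fac v (ξ ((Ideal.absNorm v.asIdeal : ℕ) : ZMod q) * (Ideal.absNorm v.asIdeal : ℂ) ^ (-s)) =
      ∏ j, ∏ w ∈ Pool.Agent.Q5.BR.above (M.piece j).E v,
        Pool.Agent.H511.Cm.UW (Pool.Agent.H511.Cm.psW (M.piece j).char ξ) (M.piece j).rep w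
          (s - (i : ℂ) / 2) := by
  classical
  unfold Motive.fac
  refine Finset.prod_congr rfl fun j _ => ?_
  unfold Piece.indFac
  have hfin : (above (M.piece j).E v).Finite :=
    Pool.Agent.Q5.BR.above_finite v
  rw [finprod_mem_eq_finite_toFinset_prod _ hfin]
  refine Finset.prod_congr rfl fun w hw => ?_
  have hwv : w.under (𝓞 F) = v := Pool.Agent.Q5.BR.mem_above.1 hw
  unfold Piece.fac frobFac heckeVal Pool.Agent.H511.Cm.UW
  rw [if_pos (hv j w hwv)]
  congr 1
  refine Multiset.map_congr rfl fun α _ => ?_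
  have h1 : Ideal.absNorm w.asIdeal = Ideal.absNorm v.asIdeal ^ resDeg F w := by
    have h2 := Pool.Agent.Q5.BR.absNorm_rdeg (K := F) w
    have h5 : Ideal.absNorm (w.under (𝓞 F)).asIdeal = Ideal.absNorm v.asIdeal := by rw [hwv]
    rw [h5] at h2
    exact h2
  have h3 : (ξ ((Ideal.absNorm v.asIdeal : ℕ) : ZMod q) *
      (Ideal.absNorm v.asIdeal : ℂ) ^ (-s)) ^ resDeg F w =
      ξ ((Ideal.absNorm w.asIdeal : ℕ) : ZMod q) * (Ideal.absNorm w.asIdeal : ℂ) ^ (-s) := by
    rw [h1, mul_pow, Nat.cast_pow, map_pow, Nat.cast_pow]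
    congr 1
    rw [← Complex.natCast_cpow_natCast_mul, ← Complex.cpow_nat_mul]
  rw [h3]
  have h4 : (Pool.Agent.H921R2.TatePole.nm w : ℂ) ^ (-(s - (i : ℂ) / 2)) =
      (Ideal.absNorm w.asIdeal : ℂ) ^ (-s) * (Ideal.absNorm w.asIdeal : ℂ) ^ ((i : ℂ) / 2) := by
    rw [← Complex.cpow_add _ _ (norm_ne w)]
    congr 1
    ring
  unfold Pool.Agent.H511.Cm.psW Pool.Agent.H511.Ex.dirW
  rw [h4]
  ring

/-- **The theorem for one system of Euler factors.** -/
theorem holds_of (M : Motive F i) {m : ℕ}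
    (hm : ∀ j, (M.piece j).Within m) :
    ∃ N : ℕ, N ≠ 0 ∧ ∀ B, M.IsEulerSystem B → Holds i m N B := by
  classical
  choose n hn hnm using hm
  choose N₀ ι J d Ni L hN hF hT using fun j =>
    Pool.Agent.H511.Cm.piece_fams (M.piece j).isHecke.isHecke (detects_iff.1 (hn j)) (M.piece j).rep
  have hdvd : ∀ j, N₀ j ∣ ∏ j, N₀ j := fun j => Finset.dvd_prod_of_mem _ (Finset.mem_univ j)
  refine ⟨∏ j, N₀ j, Finset.prod_ne_zero_iff.2 fun j _ => hN j, fun B hB => ?_⟩
  have hFam := Pool.Agent.H511.Cm.fams_sigma hF hnm hdvd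
  set c : ℂ := (i : ℂ) / 2 with hc
  have hcr : c.re = (i : ℝ) / 2 := half_re i
  have hci : c.im = 0 := half_im i
  -- the bad primes
  obtain ⟨S₀, hS₀⟩ := hB.good
  have hram : ∀ j, {v : HeightOneSpectrum (𝓞 F) | ∃ w : HeightOneSpectrum (𝓞 (M.piece j).E),
      w.under (𝓞 F) = v ∧ ¬ Unramified (M.piece j).L w}.Finite := by
    intro j
    refine ((Pool.Agent.Q92.AR.ramified_finite (K := (M.piece j).E) (M := (M.piece j).L)).image
      (fun w => w.under (𝓞 F))).subset ?_
    rintro v ⟨w, hw, hr⟩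
    exact ⟨w, hr, hw⟩
  set S : Finset (HeightOneSpectrum (𝓞 F)) :=
    S₀ ∪ Finset.univ.biUnion fun j => (hram j).toFinset with hS
  have hSg : ∀ v ∉ S, (∀ z : ℂ, (B v).eval z = M.fac v z) ∧ ∀ j,
      ∀ w : HeightOneSpectrum (𝓞 (M.piece j).E), w.under (𝓞 F) = v →
        Unramified (M.piece j).L w := by
    intro v hv
    rw [hS, Finset.mem_union, not_or] at hv
    refine ⟨hS₀ v hv.1, fun j w hw => ?_⟩
    by_contra hr
    refine hv.2 (Finset.mem_biUnion.2 ⟨j, Finset.mem_univ j, ?_⟩)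
    rw [Set.Finite.mem_toFinset]
    exact ⟨w, hw, hr⟩
  have hq1 : ∀ v : HeightOneSpectrum (𝓞 F), (1 : ℝ) < (Ideal.absNorm v.asIdeal : ℝ) :=
    Pool.Agent.W353.PV.one_lt_norm
  -- the L-functions
  have key : ∀ (q : ℕ) (ξ : DirichletCharacter ℂ q), ∃ Λ : ℂ → ℂ, 2 ≤ q →
      Nat.Coprime q (∏ j, N₀ j) → ξ.IsPrimitive → IsTwistedL i B ξ Λ ∧
        ∀ s : ℂ, (i : ℝ) / 2 < s.re → (∀ j, ∀ x ∈ J j, L j x q ξ (s - c) ≠ 0) →
          AnalyticAt ℂ Λ s ∧ Λ s ≠ 0 := by
    intro q ξ
    by_cases hall : 2 ≤ q ∧ Nat.Coprime q (∏ j, N₀ j) ∧ ξ.IsPrimitive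
    swap
    · exact ⟨0, fun h1 h2 h3 => absurd ⟨h1, h2, h3⟩ hall⟩
    obtain ⟨hq, hqN, hξ⟩ := hall
    choose g hg hgp hgr using fun j =>
      hT j q ξ hq (Nat.Coprime.coprime_dvd_right (hdvd j) hqN) hξ
    obtain ⟨Λ, h1, h2, h3⟩ := Pool.Agent.H511.Cm.glue (F := F) (fun j => (M.piece j).E)
      (fun j w => Pool.Agent.H511.Cm.UW (Pool.Agent.H511.Cm.psW (M.piece j).char ξ)
        (M.piece j).rep w)
      (fun j w => Pool.Agent.H511.Cm.UW_diff _ _ w)
      (fun j w s hs => Pool.Agent.H511.Cm.UW_ne (Pool.Agent.H511.Cm.norm_psW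
        (Pool.Agent.H511.Cm.norm_le (M.piece j).isHecke.isHecke) ξ) _ w hs)
      g hg hgp c S
      (fun v s => (B v).eval (ξ ((Ideal.absNorm v.asIdeal : ℕ) : ZMod q) *
        (Ideal.absNorm v.asIdeal : ℂ) ^ (-s)))
      (fun v _ => by
        refine (Polynomial.differentiable (B v)).comp ?_
        refine (differentiable_const _).mul ?_
        intro s
        exact (differentiableAt_id.neg).const_cpow (Or.inl (norm_ne v)))
      (fun v _ s hs h0 => by
        have h1 := hB.weights v _ h0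
        have h2 : 0 < Ideal.absNorm v.asIdeal := by
          have := hq1 v
          exact_mod_cast (by linarith : (0 : ℝ) < (Ideal.absNorm v.asIdeal : ℝ))
        rw [norm_mul, Complex.norm_natCast_cpow_of_pos h2, Complex.neg_re] at h1
        have h3 : (Ideal.absNorm v.asIdeal : ℝ) ^ (-s.re) <
            (Ideal.absNorm v.asIdeal : ℝ) ^ (-((i : ℝ) / 2)) :=
          Real.rpow_lt_rpow_of_exponent_lt (hq1 v) (by linarith)
        have h4 : ‖ξ ((Ideal.absNorm v.asIdeal : ℕ) : ZMod q)‖ *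
            (Ideal.absNorm v.asIdeal : ℝ) ^ (-s.re) ≤ (Ideal.absNorm v.asIdeal : ℝ) ^ (-s.re) :=
          mul_le_of_le_one_left (Real.rpow_nonneg (by linarith [hq1 v]) _)
            (DirichletCharacter.norm_le_one ξ _)
        linarith)
      (fun v hv s => by
        obtain ⟨h1, h2⟩ := hSg v hv
        rw [h1, fac_twist M ξ h2])
    refine ⟨Λ, fun _ _ _ => ⟨⟨h1, fun s hs => h2 s (by rw [hcr]; exact hs)⟩, fun s hs hL => ?_⟩⟩
    refine h3 s (by rw [hcr]; exact hs) fun j => ?_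
    exact hgr j (s - c) (by rw [Complex.sub_re, hcr]; linarith) (hL j)
  choose Λ hΛ using key
  refine ⟨Λ, fun q ξ hq hqN hξ => (hΛ q ξ hq hqN hξ).1, ?_⟩
  have hkey : ∀ (q : ℕ) (ξ : DirichletCharacter ℂ q), 2 ≤ q → Nat.Coprime q (∏ j, N₀ j) →
      ξ.IsPrimitive → ∀ U : Set ℂ, ¬ Regular i (Λ q ξ) U →
      ∃ x ∈ Finset.univ.sigma J, ∃ s ∈ U, 0 < (s - c).re ∧ L x.1 x.2 q ξ (s - c) = 0 := by
    intro q ξ hq hqN hξ U hU
    by_contra hcon
    push Not at hcon
    refine hU fun s hs h0 => (hΛ q ξ hq hqN hξ).2 s h0 fun j x hx => ?_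
    exact hcon ⟨j, x⟩ (Finset.mem_sigma.2 ⟨Finset.mem_univ j, hx⟩) s hs
      (by rw [Complex.sub_re, hcr]; linarith)
  have him : ∀ s : ℂ, (s - c).im = s.im := fun s => by rw [Complex.sub_im, hci, sub_zero]
  have hre : ∀ s : ℂ, (s - c).re - 1 / 2 = s.re - ((i : ℝ) + 1) / 2 := fun s => by
    rw [Complex.sub_re, hcr]
    ring
  refine ⟨?_, ?_, ?_, ?_⟩
  · obtain ⟨C, B', h1⟩ := hFam.dens
    refine ⟨C, B', fun Q δ T hQ h0 h2 hT => h1 Q δ T hQ h0 h2 hT _ fun q ξ hq hqN hξ hS => ?_⟩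
    obtain ⟨x, hx, s, ⟨hs1, hs2⟩, hs3, hs4⟩ := hkey q ξ hq hqN hξ _ hS
    exact ⟨x, hx, s - c, hs3, by rw [him]; exact hs1, by rw [hre]; exact hs2, hs4⟩
  · intro δ h0 h2
    obtain ⟨C, κ, hκ, h1⟩ := hFam.any h0 h2
    refine ⟨C, κ, hκ, fun Q T hQ hT => h1 Q T hQ hT _ fun q ξ hq hqN hξ hS => ?_⟩
    obtain ⟨x, hx, s, ⟨hs1, hs2⟩, hs3, hs4⟩ := hkey q ξ hq hqN hξ _ hS
    exact ⟨x, hx, s - c, hs3, by rw [him]; exact hs1, by rw [hre]; exact hs2, hs4⟩
  · intro hm4 k
    obtain ⟨K, h1⟩ := hFam.near hm4 k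
    refine ⟨K, fun Q hQ => h1 Q hQ _ fun q ξ hq hqN hξ hS => ?_⟩
    obtain ⟨x, hx, s, hs1, hs3, hs4⟩ := hkey q ξ hq hqN hξ _ hS
    refine ⟨x, hx, s - c, hs3, hs4, ?_⟩
    rw [him, hre]
    exact hs1
  · intro δ h0 h2
    obtain ⟨C, κ, hκ, h1⟩ := hFam.anyOne h0 h2
    refine ⟨C, κ, hκ, fun q T hq hqN hT => h1 q T hq hqN hT _ fun ξ hξ hS => ?_⟩
    obtain ⟨x, hx, s, ⟨hs1, hs2⟩, hs3, hs4⟩ := hkey q ξ hq hqN hξ _ hS
    exact ⟨x, hx, s - c, hs3, by rw [him]; exact hs1, by rw [hre]; exact hs2, hs4⟩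

/-- the Euler factors of a variety with the cohomology `M` are those of `M` -/
theorem euler_of (M : Motive F i) {l d : ℕ} {X : Set (MvPolynomial (Fin l) (𝓞 F))}
    (hi : i ≤ 2 * d) (hX : M.IsCohomology X d) {B : HeightOneSpectrum (𝓞 F) → Polynomial ℂ}
    (hB : IsEulerSystemOf X d i B) : M.IsEulerSystem B := by
  classical
  obtain ⟨S, hS⟩ := hX
  obtain ⟨⟨S', hS'⟩, hw⟩ := hB
  refine ⟨⟨S ∪ S', fun v hv z => ?_⟩, hw⟩
  rw [Finset.mem_union, not_or] at hv
  obtain ⟨A, hA, h1⟩ := hS v hv.1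
  obtain ⟨A', hA', h2⟩ := hS' v hv.2
  rw [h2, ← h1, eigenvalues_unique hi hA' hA]

end

/-! ### The theorem -/

/-- **Theorem.** Let `M = ⨁_j Ind_{E_j}^F (ψ_j ⊗ ρ_j)` be a motive of weight `i` over the number field
`F`, with extension fields `E_j`, Hecke characters `ψ_j` of `E_j` of any infinity types and conductors,
and representations `ρ_j` of the groups `G_j` of Galois extensions `L_j/E_j`, and let `m` be such that
for every `j` there is an `n_j` with `Detects G_j n_j` and `n_j [E_j : ℚ] ≤ m`. There is an `N ≠ 0` such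
that for all systems `B` of Euler factors of `M` and all primitive Dirichlet characters `ξ` of conductor
`q ≥ 2` prime to `N`, the L-functions of the twists `M ⊗ ξ` have meromorphic continuations `Λ q ξ`, and
for few `ξ` only they are not holomorphic without zeros away from the central line: the number of the
exceptions of conductor `q ≤ Q` (the number of all `ξ` is of the order `Q ^ 2`) is

* at most `C (1 + T) ^ (2 m + 1) (1 + log Q) ^ B Q ^ (expo m δ)` for the region `Re s > i/2`,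
  `|Im s| ≤ T`, `|Re s - (i + 1)/2| ≥ δ`, uniformly for `Q ≥ 1`, `0 ≤ δ ≤ 1/2`, `T ≥ 0`,
* at most `C (1 + T) ^ (2 m + 1) Q ^ (2 - κ)` with a `κ > 0` for the same region, if
  `δ > max (1/2 - 2/m) 0`,
* for `m ≤ 4` and every `k`, at most `K Q ^ 2 / (1 + log Q) ^ k` for the region `Re s > i/2`,
  `|Re s - (i + 1)/2| ^ a log Q > K (log (1 + log Q) + log (2 + |Im s|))`, with `a = 1` for `m ≤ 3`,
  `a = 2` for `m = 4`,

and the number of the exceptions modulo one `q` prime to `N` is at most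
`C (1 + T) ^ (2 m + 1) q ^ (1 - κ)` for `δ > max (1/2 - 1/m) 0`. In particular this is true for the
twists of `L(H^i(X), s)` for all projective varieties `X` over `F` whose cohomology `H^i(X)` is such an
`M`. The Euler factors at finitely many primes may be arbitrary factors of weights at most `i`. The
hypothesis `Detects G n` holds if `G` has an abelian subgroup of index `n`, and if `n = 6` and `G` is
isomorphic to `A₅`. -/
theorem result :
    (∀ (F : Type) [Field F] [NumberField F] (i m : ℕ) (M : Motive F i),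
      (∀ j, (M.piece j).Within m) →
      ∃ N : ℕ, N ≠ 0 ∧ (∀ B, M.IsEulerSystem B → Holds i m N B) ∧
        ∀ (l d : ℕ) (X : Set (MvPolynomial (Fin l) (𝓞 F))), i ≤ 2 * d → M.IsCohomology X d →
          ∀ B, IsEulerSystemOf X d i B → Holds i m N B) ∧
    (∀ (G : Type) [Group G] [Finite G] (A : Subgroup G), (∀ a ∈ A, ∀ b ∈ A, a * b = b * a) →
      Detects G A.index) ∧
    (∀ (G : Type) [Group G] [Finite G], Nonempty (G ≃* alternatingGroup (Fin 5)) →
      Detects G 6) := by
  refine ⟨?_, ?_, ?_⟩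
  · intro F _ _ i m M hm
    obtain ⟨N, hN, h⟩ := holds_of M hm
    exact ⟨N, hN, h, fun l d X hi hX B hB => h B (euler_of M hi hX hB)⟩
  · intro G _ _ A hA
    exact detects_iff.2 (Pool.Agent.H511.Ex.detects_comm A hA le_rfl)
  · rintro G _ _ ⟨ε⟩
    exact detects_iff.2 (Pool.Agent.H511.Ex.detects_A5.congr ε)

end Pool.Agent.Results.MP_148101_nt.PotentiallyCMMotives
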