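import Pool.Agent.H500.MLF

set_option autoImplicit false
set_option linter.unusedSectionVars false

/-!
# L-functions of motives with small residual images

Let `H` be the cohomology in some degree of a motive over `ℚ`, with good reduction outside the finite
set `S` of primes, and let `P p` be the characteristic polynomial of the geometric Frobenius at
`p ∉ S`, with coefficients in the ring of integers of a number field `E` (`E = ℚ` for rational
coefficients); its zeros `α p i` are the diagonal entries of the matrix `D p`.  The theorem is about an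
arbitrary family of polynomials: no purity, no bound for the zeros, no compatible system of `ℓ`-adic
representations and nothing at infinity is assumed.

Suppose that for a set of primes `v` of `E` of positive upper density the polynomials `P p` are matched
modulo `v` by residual representations (the constituents of the reduction of `H` modulo `v`) whose
projective images have a bound `c`.  Then for all algebraic representations `r` of `GL_n` (tensor
constructions `Symᵃ H`, `Λᵃ H`, `H^{⊗a} ⊗ (H^∨)^{⊗b}`, ...), all Artin representations `A` of the absolute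
Galois group of `ℚ` and all choices of the factors at the primes of a finite set `Z ⊇ S`, the `L`-function
`L(s, r(H) ⊗ A)` has a meromorphic continuation to `ℂ`.

The proof: the residual images force `r(H) ⊗ A` to be a sum of Tate twists of Artin representations
(Kummer theory and Chebotarev for the Frobenius eigenvalues, lifting of the slopes from infinitely many
`v`); the one-parameter subgroup of the weights is decomposed by the algebraic representation `r`; the
factors are compared with those of a finite level, and the theorem of Brauer and Hecke is applied.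
-/

namespace Pool.Agent.Results.MP_148101_nt.SmallResidualImages

open NumberField IsDedekindDomain Filter Topology Polynomial Pool.Agent.Y800 Kronecker
open Pool.Agent.W401.Cheb (dens)

/-- There are representations `ρ j` of positive dimension of the absolute Galois group of `ℚ` over a
field which contains the residue field of `v`, with open kernel, such that a subgroup of index at
most `c` acts by scalars on each of them, unramified at the primes `p ∉ S` with `p ∉ v`, and such that
for these primes the product of the characteristic polynomials of a geometric Frobenius element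
at `p` is `P p` modulo `v`. -/
def SmallResidual {E : Type} [Field E] [NumberField E] (P : ℕ → (𝓞 E)[X]) (S : Finset ℕ) (c : ℕ)
    (v : HeightOneSpectrum (𝓞 E)) : Prop :=
  ∃ (k : Type) (_ : Field k) (φ : 𝓞 E →+* k) (J : Type) (_ : Fintype J) (m : J → ℕ)
    (ρ : ∀ j, GQ →* GL (Fin (m j)) k),
    RingHom.ker φ = v.asIdeal ∧ (∀ j, 0 < m j) ∧ (∀ j, IsOpen ((ρ j).ker : Set GQ)) ∧
    (∀ j, ∃ U : Subgroup GQ, U.index ≠ 0 ∧ U.index ≤ c ∧
      ∀ u ∈ U, ∃ x : k, (ρ j u : Matrix (Fin (m j)) (Fin (m j)) k) = x • 1) ∧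
    ∀ p : ℕ, p.Prime → p ∉ S → (p : 𝓞 E) ∉ v.asIdeal → (∀ j, Unramified (ρ j) p) ∧
      ∀ Q : Ideal ZBar, Q.IsMaximal → (p : ZBar) ∈ Q → ∀ σ : GQ, IsGeomFrob p Q σ →
        ∏ j, (ρ j σ : Matrix (Fin (m j)) (Fin (m j)) k).charpoly = (P p).map φ

/-- `r` is an algebraic representation of `GL_n`: the entries of `r g` are polynomials in the entries
of `g`, divided by a power of `det g`. -/
def IsAlgebraic {n m : ℕ} (r : GL (Fin n) ℂ →* GL (Fin m) ℂ) : Prop :=
  ∀ a b : Fin m, ∃ (f : MvPolynomial (Fin n × Fin n) ℂ) (k : ℕ), ∀ g : GL (Fin n) ℂ,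
    (r g : Matrix (Fin m) (Fin m) ℂ) a b =
      MvPolynomial.eval (fun ij => (g : Matrix (Fin n) (Fin n) ℂ) ij.1 ij.2) f /
        (g : Matrix (Fin n) (Fin n) ℂ).det ^ k

open Classical in
/-- The Euler factor at `p` of `L(s, r(H) ⊗ A)`: it is `det(1 - p^{-s} r(D p) ⊗ A(Fr p))⁻¹` for `p ∉ Z` and
`(B p)(p^{-s})⁻¹` for `p ∈ Z`. -/
noncomputable def factor {n m d : ℕ} (D : ℕ → GL (Fin n) ℂ) (r : GL (Fin n) ℂ →* GL (Fin m) ℂ)
    (Fr : ℕ → GQ) (A : GQ →* GL (Fin d) ℂ) (Z : Finset ℕ) (B : ℕ → ℂ[X]) (s : ℂ) (p : Nat.Primes) :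
    ℂ :=
  if (p : ℕ) ∈ Z then ((B p).eval (((p : ℕ) : ℂ) ^ (-s)))⁻¹ else
    ((1 - ((p : ℕ) : ℂ) ^ (-s) • ((r (D p) : Matrix (Fin m) (Fin m) ℂ) ⊗ₖ
      (A (Fr p) : Matrix (Fin d) (Fin d) ℂ))).det)⁻¹

theorem result {n : ℕ} {E : Type} [Field E] [NumberField E] (τ : E →+* ℂ) (S : Finset ℕ)
    (P : ℕ → (𝓞 E)[X]) (α : ℕ → Fin n → ℂ)
    (hP : ∀ p : ℕ, p.Prime → p ∉ S →
      (P p).map (τ.comp (algebraMap (𝓞 E) E)) = ∏ i, (X - C (α p i)))
    (c : ℕ) (hres : ¬ Tendsto (dens fun v => SmallResidual P S c v) atTop (𝓝 0))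
    (D : ℕ → GL (Fin n) ℂ)
    (hD : ∀ p : ℕ, p.Prime → p ∉ S → (D p : Matrix (Fin n) (Fin n) ℂ) = Matrix.diagonal (α p))
    (Fr : ℕ → GQ) (hFr : ∀ p : ℕ, p.Prime → ∃ Q : Ideal ZBar, Q.IsMaximal ∧ (p : ZBar) ∈ Q ∧
      IsGeomFrob p Q (Fr p))
    {m d : ℕ} (r : GL (Fin n) ℂ →* GL (Fin m) ℂ) (hr : IsAlgebraic r)
    (A : GQ →* GL (Fin d) ℂ) (hA : IsOpen (A.ker : Set GQ))
    (Z : Finset ℕ) (hSZ : S ⊆ Z) (B : ℕ → ℂ[X]) :
    ∃ (L : ℂ → ℂ) (s₀ : ℝ), MeromorphicOn L Set.univ ∧
      ∀ s : ℂ, s₀ < s.re → HasProd (factor D r Fr A Z B s) (L s) := by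
  classical
  obtain ⟨R, w, hR⟩ := Pool.Agent.H500.ML.artin_type τ S P α hP c
    (Pool.Agent.H500.MW.posUD_of_not hres) fun _ hv => hv
  obtain ⟨L, s₀, hL, h⟩ := Pool.Agent.H500.ML.main_L hR r hr A hA D hD Fr hFr Z hSZ B
  refine ⟨L, s₀, hL, fun s hs => ?_⟩
  refine (h s hs).congr_fun fun p => ?_
  unfold factor
  split_ifs <;> rfl

end Pool.Agent.Results.MP_148101_nt.SmallResidualImages
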