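import Mathlib
import Pool.Agent.H511.Sx.Fld
import Pool.Agent.H511.Sx.Ent
import Pool.Graph.R_seed8.W353.PV.Eig

/-!
# The L-functions of all motives `⨁ ψ_j ⊗ ρ_j` over explicit fields `K`, for all Galois groups

Let `k` be a number field. The motives of CM type over `k` (abelian varieties with complex
multiplication, Fermat hypersurfaces, ...) are given by Hecke characters `ψ` of `k` of arbitrary
infinity types, and their L-functions are the classical ones of Hecke. Over an extension field `K`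
there are in addition the twisted forms of these motives by Artin representations `ρ` of `K`; for
example, for an abelian variety `A` over `k` with complex multiplication and a rational representation
`ρ` of the group of a Galois extension `L/K`, the abelian variety `A_K ⊗ ρ` over `K` (an `L/K`-form of
a power of `A`) with `H^1 = H^1(A)|_K ⊗ ρ`. The L-functions of these motives, the functions
`L(s, ψ|_K ⊗ ρ)`, are meromorphic by Brauer's theorem, but it is not known that they have no poles,
except if `ρ` is induced from characters or in a few other cases.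

Let `m` be a multiple of a certain `m₀`, `m > [k : ℚ]`, `n ≥ 1`, and let `L` be the field of the roots of
`(X ^ n - 1) (X ^ m - X - 1)` over `k`. The fields `K` of the theorem are those between `k` and `L` which
contain the `n`-th roots of unity, such that `L = K(α)` for every root `α` of `X ^ m - X - 1`, with
`[L : K] ≤ N`. **Every** finite group of order at most `N` is the group of `L/K` for such a `K`, and
`L/K` is unramified at all finite and infinite places. We prove that the conjecture on the poles is true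
for **all** motives `M = ⨁ ψ_j|_K ⊗ ρ_j` over all these `K`, all Hecke characters `ψ_j` of `k` of any
infinity type and any conductor and **all** representations `ρ_j` of the group of `L/K`:
the L-function of `M` is meromorphic in the plane, it is holomorphic in the half plane `Re s > i/2`
(which contains the critical strip) with the possible exception of a pole at `s = i/2 + 1`, and there is
no pole if the weight `i` is odd or the motive satisfies the condition `(⋆)`. In the whole plane, the
L-function without the Euler factors at the primes which divide the conductors of the `ψ_j` or a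
certain integer `d`, which depends only on `L/k`, is entire, with the same exception. In particular this
holds for the L-functions `L(H^i(X), s)` of all projective varieties `X` over `K` with such cohomology.
Nothing is assumed. (A motive over `K` is a motive over `ℚ` by restriction of scalars.)

Proof. The group of `L/K` acts without fixed points on the set of the roots of `X ^ m - X - 1`, the
group of `L/k` contains the alternating group of this set, and the inertia groups are generated by
transpositions (`Pool.Agent.H511.Sx`, `Cm.Lin`). The orders of the functions `L(s, ψ ⊗ χ)`, for the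
irreducible characters `χ` of the group of `L/k`, at a
point `s` give a virtual character `θ` (Heilbronn); `θ` and its restrictions have natural
multiplicities for all linear characters of all subgroups, because of the theorem of Hecke
(`Cm.Rc`, `Sx.Ent`: by the reciprocity law the L-functions of the linear characters, twisted by `ψ`, are
Hecke L-functions of the intermediate fields with the type of `ψ`). By a theorem on such virtual
characters of the symmetric groups (`Pool.Agent.Y786.FR.free_mult` of the library) the restriction of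
`θ` to the group of `L/K` is a character if `m` is divisible by a suitable number, and this means that the
`L(s, ψ|_K ⊗ ρ)` have no poles. At `s = 1` the argument is applied to the inverses of the L-functions
(`Cm.One`).
-/

set_option autoImplicit false

open NumberField IsDedekindDomain Pool.Agent.H541R3.ART Pool.Agent.Q92.AR

namespace Pool.Agent.Results.MP_148101_nt.TwistedCMMotives

/-! ### Varieties -/

section variety

variable {K : Type} [Field K] {l : ℕ}

/-- The set `X` of homogeneous polynomials over `𝓞_K` in `l` variables gives a projective variety over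
`K`.  For a field `κ` with `q` elements and a homomorphism `𝓞_K → κ` this is `(q - 1)` times the number
of the points of `X` with coordinates in `κ`: the number of the nonzero solutions of the equations. -/
noncomputable def cone (X : Set (MvPolynomial (Fin l) (𝓞 K))) {κ : Type} [Field κ]
    (φ : 𝓞 K →+* κ) : ℕ :=
  Nat.card {u : Fin l → κ // u ≠ 0 ∧ ∀ f ∈ X, MvPolynomial.eval₂ φ u f = 0}

/-- The elements of the finite multiset `A` are the eigenvalues of the geometric Frobenius at the prime
`v` of `K` on `H^i(X)`, for a variety `X` of dimension `d`: there are finite multisets `β_k` of complex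
numbers of absolute value `q_v^{k/2}`, `k = 0, …, 2d`, with `β_i = A`, such that for every finite
extension `κ` of the residue field of `v`, of degree `e`, the number of the points of `X` with
coordinates in `κ` is `∑ (-1)^k ∑_{z ∈ β_k} z^e`.  By the theorem of Deligne such `β_k` exist at almost
all primes if `X` is smooth, and `β_i` has as many elements as the `i`-th Betti number of `X`; they are
unique. -/
def Eigenvalues (X : Set (MvPolynomial (Fin l) (𝓞 K))) [NumberField K] (d i : ℕ)
    (v : HeightOneSpectrum (𝓞 K)) (A : Multiset ℂ) : Prop :=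
  ∃ β : ℕ → Multiset ℂ, β i = A ∧
    (∀ k, ∀ z ∈ β k, ‖z‖ = (Ideal.absNorm v.asIdeal : ℝ) ^ ((k : ℝ) / 2)) ∧
    ∀ (κ : Type) [Field κ] [Finite κ] (φ : 𝓞 K →+* κ) (e : ℕ), RingHom.ker φ = v.asIdeal →
      Nat.card κ = Ideal.absNorm v.asIdeal ^ e →
      (cone X φ : ℂ) = ((Ideal.absNorm v.asIdeal : ℂ) ^ e - 1) *
        ∑ k ∈ Finset.range (2 * d + 1), (-1 : ℂ) ^ k * ((β k).map (fun z => z ^ e)).sum

end variety

/-! ### Hecke characters -/

section chars

variable {k : Type} [Field k] [NumberField k]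

/-- `x` is totally positive -/
def TotPos (x : 𝓞 k) : Prop := ∀ τ : k →+* ℝ, 0 < τ (x : k)

/-- the archimedean part `∏_φ (φ(x)/|φ(x)|)^(n_φ)` of a unitary Hecke character -/
noncomputable def phase (n : (k →+* ℂ) → ℤ) (x : k) : ℂ :=
  ∏ φ : k →+* ℂ, (φ x / (‖φ x‖ : ℂ)) ^ n φ

/-- `ψ` is a (not necessarily primitive) unitary Hecke character of `k` modulo `𝔪` of infinity type `n`
(with arbitrary signs at the real places), as a function on the ideals, zero if not prime to `𝔪` -/
structure IsHeckeChar (𝔪 : Ideal (𝓞 k)) (n : (k →+* ℂ) → ℤ) (ψ : Ideal (𝓞 k) →*₀ ℂ) : Prop where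
  ne_bot : 𝔪 ≠ ⊥
  supp : ∀ 𝔞 : Ideal (𝓞 k), 𝔞 ≠ ⊥ → (ψ 𝔞 ≠ 0 ↔ IsCoprime 𝔞 𝔪)
  unit : ∀ 𝔞 : Ideal (𝓞 k), ψ 𝔞 ≠ 0 → ‖ψ 𝔞‖ = 1
  ray : ∀ x : 𝓞 k, x ≠ 0 → x - 1 ∈ 𝔪 → TotPos x → ψ (Ideal.span {x}) = phase n (x : k)

end chars

/-! ### The motives -/

/-- A motive `M = ⨁_j ψ_j|_K ⊗ ρ_j` of weight `i` over the field `K` between `k` and `L`, with Hecke
characters `ψ_j` of `k` (of weight `i`: `N^{i/2} ψ_j` for the unitary characters `ψ_j`) and complex
representations `ρ_j` of the group of `L/K`. The condition `hodge` on the infinity types says that the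
Hodge numbers of `ψ_j` are at `(n_φ, n_φ')`, `n_φ + n_φ' = i`, for the pairs `φ, φ'` of conjugate
embeddings of `k`. -/
structure Motive (k L : Type) [Field k] [NumberField k] [Field L] [NumberField L] [Algebra k L]
    (K : IntermediateField k L) (i : ℕ) where
  /-- the number of the summands -/
  num : ℕ
  /-- a common modulus of the Hecke characters -/
  modulus : Ideal (𝓞 k)
  modulus_ne : modulus ≠ ⊥
  /-- the infinity types -/
  type : Fin num → (k →+* ℂ) → ℤ
  /-- the Hecke characters -/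
  char : Fin num → Ideal (𝓞 k) →*₀ ℂ
  /-- the dimensions of the representations -/
  dim : Fin num → ℕ
  /-- the representations of the group of `L/K` -/
  rep : (j : Fin num) → Representation ℂ (L ≃ₐ[K] L) (Fin (dim j) → ℂ)
  isHecke : ∀ j, IsHeckeChar modulus (type j) (char j)
  hodge : ∀ j, ∀ φ : k →+* ℂ, type j φ + type j (ComplexEmbedding.conjugate φ) = i

namespace Motive

variable {k L : Type} [Field k] [NumberField k] [Field L] [NumberField L] [Algebra k L]
  {K : IntermediateField k L} {i : ℕ} (M : Motive k L K i)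

/-- The restriction of `ψ_j` to `K` at a prime: the value of `ψ_j` at the norm. -/
noncomputable def res (j : Fin M.num) (w : HeightOneSpectrum (𝓞 K)) : ℂ :=
  M.char j (Ideal.relNorm (𝓞 k) w.asIdeal)

/-- The eigenvalues of the Frobenius at `w` on `M`, where `σ` is a Frobenius element of `L/K` at `w`:
the numbers `q_w^{i/2} ψ_j(w) z` for the eigenvalues `z` of `ρ_j(σ)`. -/
noncomputable def frob (w : HeightOneSpectrum (𝓞 K)) (σ : L ≃ₐ[K] L) : Multiset ℂ :=
  ∑ j, (M.rep j σ).charpoly.roots.map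
    fun z => (Ideal.absNorm w.asIdeal : ℂ) ^ ((i : ℂ) / 2) * M.res j w * z

/-- The condition `(⋆)`: there is no vector in `ψ_j|_K ⊗ ρ_j` which is fixed by the Frobenius elements
at almost all primes, that is, no invariant of the Galois group of `K` (only the finite order
characters `ψ_j` matter, that is, those with the infinity type `n_φ = n_φ' = i/2`). -/
def Star : Prop :=
  ∀ j, (∀ φ : k →+* ℂ, M.type j φ = M.type j (ComplexEmbedding.conjugate φ)) →
    ∀ v : Fin (M.dim j) → ℂ, (∃ T : Finset (HeightOneSpectrum (𝓞 K)), ∀ w ∉ T,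
      ∀ σ : L ≃ₐ[K] L, Pool.Agent.Q92.AR.IsFrobenius w σ → M.res j w • M.rep j σ v = v) → v = 0

/-- the prime `w` of `K` divides the modulus -/
def Bad (w : HeightOneSpectrum (𝓞 K)) : Prop :=
  M.modulus.map (algebraMap (𝓞 k) (𝓞 K)) ≤ w.asIdeal

/-- The polynomials `B w` define the Euler factors `1 / B_w(q_w^{-s})` of the L-function of `M`: the
right ones at the primes `w` which do not divide the modulus; at the other primes `B_w` is an
arbitrary polynomial of weights at most `i`, that is, without zeros of absolute value less than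
`q_w^{-i/2}`. -/
structure IsEulerSystem (B : HeightOneSpectrum (𝓞 K) → Polynomial ℂ) : Prop where
  good : ∀ w : HeightOneSpectrum (𝓞 K), ¬ M.Bad w →
    ∀ σ : L ≃ₐ[K] L, Pool.Agent.Q92.AR.IsFrobenius w σ →
      ∀ z : ℂ, (B w).eval z = ((M.frob w σ).map fun α => 1 - α * z).prod
  bad : ∀ w : HeightOneSpectrum (𝓞 K), M.Bad w →
    ∀ z : ℂ, (B w).eval z = 0 → (Ideal.absNorm w.asIdeal : ℝ) ^ (-((i : ℝ) / 2)) ≤ ‖z‖

/-- `M` is the cohomology `H^i(X)` of the projective variety `X` over `K` of dimension `d`: at the primes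
which do not divide the modulus the eigenvalues of the Frobenius are the same. -/
def IsCohomology {l : ℕ} (X : Set (MvPolynomial (Fin l) (𝓞 K))) (d : ℕ) : Prop :=
  ∀ w : HeightOneSpectrum (𝓞 K), ¬ M.Bad w → ∀ σ : L ≃ₐ[K] L,
    Pool.Agent.Q92.AR.IsFrobenius w σ → Eigenvalues X d i w (M.frob w σ)

/-- The polynomials `B w` define the Euler factors `1 / B_w(q_w^{-s})` of `L(H^i(X), s)`: at the primes
`w` which do not divide the modulus `B_w(z)` is the product of the `1 - α z` for the eigenvalues `α` of the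
Frobenius on `H^i(X)`; at the other primes `B_w` is an arbitrary polynomial of weights at most `i`. -/
structure IsEulerSystemOf {l : ℕ} (X : Set (MvPolynomial (Fin l) (𝓞 K))) (d : ℕ)
    (B : HeightOneSpectrum (𝓞 K) → Polynomial ℂ) : Prop where
  good : ∀ w : HeightOneSpectrum (𝓞 K), ¬ M.Bad w →
    ∃ A : Multiset ℂ, Eigenvalues X d i w A ∧ ∀ z : ℂ, (B w).eval z = (A.map fun α => 1 - α * z).prod
  bad : ∀ w : HeightOneSpectrum (𝓞 K), M.Bad w →
    ∀ z : ℂ, (B w).eval z = 0 → (Ideal.absNorm w.asIdeal : ℝ) ^ (-((i : ℝ) / 2)) ≤ ‖z‖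

end Motive

/-- `K` contains the `n`-th roots of unity of `L`, and `L = K(α)` for every root `α` of
`X ^ m - X - 1` in `L`. -/
def Free {k L : Type} [Field k] [Field L] [Algebra k L] (K : IntermediateField k L) (n m : ℕ) : Prop :=
  (∀ ζ : L, ζ ^ n = 1 → ζ ∈ K) ∧ ∀ α : L, α ^ m = α + 1 → IntermediateField.adjoin K {α} = ⊤

/-- The product `∏_w B_w(q_w^{-s})⁻¹` converges for `Re s > i/2 + 1` and has a continuation `Λ` which is
meromorphic in the plane and holomorphic for `Re s > i/2`, `s ≠ i/2 + 1`. The function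
`Λ' = Λ ∏_{w ∈ T} B_w(q_w^{-s})`, the continuation of the product without the factors at the primes in
`T`, is holomorphic in the whole plane, `s ≠ i/2 + 1`. If `P` holds both are also holomorphic at
`s = i/2 + 1`. -/
def Continues {K : Type} [Field K] [NumberField K] (i : ℕ)
    (B : HeightOneSpectrum (𝓞 K) → Polynomial ℂ) (T : Finset (HeightOneSpectrum (𝓞 K)))
    (P : Prop) : Prop :=
  ∃ Λ Λ' : ℂ → ℂ, (∀ s : ℂ, (i : ℝ) / 2 + 1 < s.re →
      HasProd (fun w => ((B w).eval ((Ideal.absNorm w.asIdeal : ℂ) ^ (-s)))⁻¹) (Λ s)) ∧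
    (∀ s : ℂ, Λ s = Λ' s * (∏ w ∈ T, (B w).eval ((Ideal.absNorm w.asIdeal : ℂ) ^ (-s)))⁻¹) ∧
    (∀ s : ℂ, s ≠ (i : ℂ) / 2 + 1 → AnalyticAt ℂ Λ' s) ∧
    (P → AnalyticAt ℂ Λ' ((i : ℂ) / 2 + 1)) ∧
    MeromorphicOn Λ Set.univ ∧
    (∀ s : ℂ, (i : ℝ) / 2 < s.re → s ≠ (i : ℂ) / 2 + 1 → AnalyticAt ℂ Λ s) ∧
    (P → AnalyticAt ℂ Λ ((i : ℂ) / 2 + 1))

/-- **The conclusions on the motive `M`**: there is a finite set `T` of primes, all of which divide `d` or
the modulus of `M`, such that for every Euler system of `M`, and for every Euler system of `H^i(X)`, for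
all projective varieties `X` over `K` with `H^i(X) = M`, the Euler product converges and has the
continuation described in `Continues`; there is no exception at `s = i/2 + 1` if the weight `i` is odd
or `(⋆)` holds. -/
def Motive.Holds {k L : Type} [Field k] [NumberField k] [Field L] [NumberField L] [Algebra k L]
    {K : IntermediateField k L} {i : ℕ} (M : Motive k L K i) (d : ℕ) : Prop :=
  ∃ T : Finset (HeightOneSpectrum (𝓞 K)), (∀ w ∈ T, (d : 𝓞 K) ∈ w.asIdeal ∨ M.Bad w) ∧
    (∀ B, M.IsEulerSystem B → Continues i B T (Odd i ∨ M.Star)) ∧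
    ∀ (l e : ℕ) (X : Set (MvPolynomial (Fin l) (𝓞 K))), i ≤ 2 * e → M.IsCohomology X e →
      ∀ B, M.IsEulerSystemOf X e B → Continues i B T (Odd i ∨ M.Star)

/-- `L/K` is unramified at all finite and infinite places, and the conclusions are true for all motives
`M = ⨁_j ψ_j|_K ⊗ ρ_j` of any weight. -/
def Good {k L : Type} [Field k] [NumberField k] [Field L] [NumberField L] [Algebra k L]
    (K : IntermediateField k L) (d : ℕ) : Prop :=
  (∀ w : HeightOneSpectrum (𝓞 K), Unramified L w) ∧ IsUnramifiedAtInfinitePlaces K L ∧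
    ∀ (i : ℕ) (M : Motive k L K i), M.Holds d

/-! ### Proofs -/

section aux

variable {k L : Type} [Field k] [NumberField k] [Field L] [NumberField L] [Algebra k L]
  {K : IntermediateField k L} {i : ℕ}

theorem IsHeckeChar.isHecke {𝔪 : Ideal (𝓞 k)} {n : (k →+* ℂ) → ℤ} {ψ : Ideal (𝓞 k) →*₀ ℂ}
    (h : IsHeckeChar 𝔪 n ψ) : Pool.Agent.N172.HS.IsHecke 𝔪 n 0 ψ where
  ne_bot := h.ne_bot
  supp := h.supp
  unit := h.unit
  ray x hx hx1 hx2 := by
    rw [h.ray x hx hx1 hx2]
    unfold phase Pool.Agent.N172.HS.arch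
    refine Finset.prod_congr rfl fun φ _ => ?_
    simp

/-- the eigenvalues are unique -/
theorem eigenvalues_unique {K : Type} [Field K] [NumberField K] {l d i : ℕ}
    {X : Set (MvPolynomial (Fin l) (𝓞 K))} (hi : i ≤ 2 * d) {v : HeightOneSpectrum (𝓞 K)}
    {A A' : Multiset ℂ} (h : Eigenvalues X d i v A) (h' : Eigenvalues X d i v A') : A = A' := by
  obtain ⟨β, h1, h2, h3⟩ := h
  obtain ⟨β', h1', h2', h3'⟩ := h'
  rw [← h1, ← h1']
  refine Pool.Agent.W353.PV.mult_unique (D := 2 * d + 1) (Pool.Agent.W353.PV.one_lt_norm v) h2 h2'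
    (fun e he => ?_) (by omega)
  obtain ⟨κ, _, _, φ, hk, hc⟩ := Pool.Agent.W353.PV.exists_ext v e he
  have e1 := h3 κ φ e hk hc
  rw [h3' κ φ e hk hc] at e1
  refine (mul_left_cancel₀ ?_ e1).symm
  have h4 : (1 : ℝ) < (Ideal.absNorm v.asIdeal : ℝ) ^ e :=
    one_lt_pow₀ (Pool.Agent.W353.PV.one_lt_norm v) (by omega)
  intro h5
  have h6 : ((Ideal.absNorm v.asIdeal : ℂ) ^ e) = 1 := sub_eq_zero.1 h5
  have h7 : ((Ideal.absNorm v.asIdeal : ℝ) ^ e) = 1 := by exact_mod_cast h6
  linarith

variable (M : Motive k L K i)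

/-- the restrictions of the Hecke characters vanish at the bad primes -/
theorem res_bad {w : HeightOneSpectrum (𝓞 K)} (hw : M.Bad w) (j : Fin M.num) : M.res j w = 0 := by
  by_contra hne
  have h1 : Ideal.relNorm (𝓞 k) w.asIdeal ≠ ⊥ := by
    intro h0
    apply hne
    unfold Motive.res
    rw [h0]
    exact map_zero _
  have h2 := ((M.isHecke j).supp _ h1).1 hne
  rw [Pool.Agent.H511.Cm.relNorm_prime (K := k) w] at h2
  have h3 : Pool.Agent.Q5.BR.rdeg k w ≠ 0 := (Pool.Agent.Q5.BR.rdeg_pos w).ne'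
  have h4 : IsCoprime (w.under (𝓞 k)).asIdeal M.modulus :=
    (IsCoprime.pow_left_iff (Nat.pos_of_ne_zero h3)).1 h2
  have h5 : M.modulus ≤ (w.under (𝓞 k)).asIdeal := by
    have h6 : (w.under (𝓞 k)).asIdeal = w.asIdeal.comap (algebraMap (𝓞 k) (𝓞 K)) := rfl
    rw [h6]
    exact Ideal.map_le_iff_le_comap.1 hw
  rw [Ideal.isCoprime_iff_sup_eq, sup_eq_left.2 h5] at h4
  exact (w.under (𝓞 k)).isPrime.ne_top h4

theorem bad_finite : {w : HeightOneSpectrum (𝓞 K) | M.Bad w}.Finite := by
  have h1 : M.modulus.map (algebraMap (𝓞 k) (𝓞 K)) ≠ ⊥ := by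
    rw [Ne, Ideal.map_eq_bot_iff_of_injective
      (FaithfulSMul.algebraMap_injective (𝓞 k) (𝓞 K))]
    exact M.modulus_ne
  exact Pool.Agent.H511.Cm.above_finite h1

theorem half_re (i : ℕ) : ((i : ℂ) / 2).re = (i : ℝ) / 2 := by
  have : ((i : ℂ) / 2) = (((i : ℝ) / 2 : ℝ) : ℂ) := by push_cast; rfl
  rw [this, Complex.ofReal_re]

/-- the Hecke characters without the primes which divide `2 N₀` -/
noncomputable def cres (N₀ : ℕ) (j : Fin M.num) (w : HeightOneSpectrum (𝓞 K)) : ℂ :=
  Pool.Agent.H511.Sx.cut N₀ (M.char j) (Ideal.relNorm (𝓞 k) w.asIdeal)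

theorem cres_two {N₀ : ℕ} {w : HeightOneSpectrum (𝓞 K)} (hw : ((2 * N₀ : ℕ) : 𝓞 K) ∈ w.asIdeal)
    (j : Fin M.num) : cres M N₀ j w = 0 := by
  unfold cres
  rw [Pool.Agent.H511.Cm.relNorm_prime (K := k) w, map_pow]
  have h1 : ((2 * N₀ : ℕ) : 𝓞 k) ∈ (w.under (𝓞 k)).asIdeal := by
    change algebraMap (𝓞 k) (𝓞 K) _ ∈ w.asIdeal
    rw [map_natCast]
    exact hw
  rw [Pool.Agent.H511.Sx.cut_vanishes N₀ (M.char j) _ h1,
    zero_pow (Pool.Agent.Q5.BR.rdeg_pos w).ne']

theorem cres_eq {N₀ : ℕ} {w : HeightOneSpectrum (𝓞 K)} (hw : ((2 * N₀ : ℕ) : 𝓞 K) ∉ w.asIdeal)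
    (j : Fin M.num) : cres M N₀ j w = M.res j w := by
  unfold cres Motive.res
  rw [Pool.Agent.H511.Cm.relNorm_prime (K := k) w, map_pow, map_pow]
  have h1 : ((2 * N₀ : ℕ) : 𝓞 k) ∉ (w.under (𝓞 k)).asIdeal := by
    intro h
    apply hw
    have h2 : algebraMap (𝓞 k) (𝓞 K) ((2 * N₀ : ℕ) : 𝓞 k) ∈ w.asIdeal := h
    rwa [map_natCast] at h2
  rw [Pool.Agent.H511.Sx.cut_apply N₀ (M.char j) _ h1]

theorem two_finite {N₀ : ℕ} (hN₀ : N₀ ≠ 0) :
    {w : HeightOneSpectrum (𝓞 K) | ((2 * N₀ : ℕ) : 𝓞 K) ∈ w.asIdeal}.Finite := by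
  have h1 : Ideal.span {((2 * N₀ : ℕ) : 𝓞 K)} ≠ ⊥ := by
    rw [Ne, Ideal.span_singleton_eq_bot]
    have : (2 * N₀ : ℕ) ≠ 0 := by omega
    exact_mod_cast this
  refine (Pool.Agent.H511.Cm.above_finite h1).subset fun w hw => ?_
  change Ideal.span {((2 * N₀ : ℕ) : 𝓞 K)} ≤ w.asIdeal
  rwa [Ideal.span_singleton_le_iff_mem]

/-- the Frobenius eigenvalues have weight `i` -/
theorem frob_norm {w : HeightOneSpectrum (𝓞 K)} {σ : L ≃ₐ[K] L} {α : ℂ} (hα : α ∈ M.frob w σ) :
    ‖α‖ ≤ (Ideal.absNorm w.asIdeal : ℝ) ^ ((i : ℝ) / 2) := by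
  unfold Motive.frob at hα
  rw [Multiset.mem_sum] at hα
  obtain ⟨j, -, hα⟩ := hα
  obtain ⟨z, hz, rfl⟩ := Multiset.mem_map.1 hα
  have hq1 := Pool.Agent.W353.PV.one_lt_norm w
  have h2 : 0 < Ideal.absNorm w.asIdeal := by
    exact_mod_cast (by linarith : (0 : ℝ) < (Ideal.absNorm w.asIdeal : ℝ))
  rw [norm_mul, norm_mul, Pool.Agent.H511.Cm.norm_eig _ _ hz, mul_one,
    Complex.norm_natCast_cpow_of_pos h2]
  have h3 : ((i : ℂ) / 2).re = (i : ℝ) / 2 := half_re i
  rw [h3]
  have h4 : ‖M.res j w‖ ≤ 1 := Pool.Agent.H511.Cm.norm_le (M.isHecke j).isHecke _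
  calc _ ≤ (Ideal.absNorm w.asIdeal : ℝ) ^ ((i : ℝ) / 2) * 1 :=
        mul_le_mul_of_nonneg_left h4 (Real.rpow_nonneg (Nat.cast_nonneg _) _)
    _ = _ := mul_one _

theorem good_weight {w : HeightOneSpectrum (𝓞 K)} {σ : L ≃ₐ[K] L} {z : ℂ}
    (h : ((M.frob w σ).map fun α => 1 - α * z).prod = 0) :
    (Ideal.absNorm w.asIdeal : ℝ) ^ (-((i : ℝ) / 2)) ≤ ‖z‖ := by
  rw [Multiset.prod_eq_zero_iff] at h
  obtain ⟨α, hα, h1⟩ := Multiset.mem_map.1 h
  have h2 : α * z = 1 := (sub_eq_zero.1 h1).symm
  have h3 : ‖α‖ * ‖z‖ = 1 := by rw [← norm_mul, h2, norm_one]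
  have h4 := frob_norm M hα
  have hq1 := Pool.Agent.W353.PV.one_lt_norm w
  have h5 : (0 : ℝ) < (Ideal.absNorm w.asIdeal : ℝ) ^ ((i : ℝ) / 2) :=
    Real.rpow_pos_of_pos (by linarith) _
  rw [Real.rpow_neg (by linarith), inv_le_iff_one_le_mul₀ h5, ← h3, mul_comm]
  exact mul_le_mul_of_nonneg_left h4 (norm_nonneg _)

/-- the L-function of the motive from those of its parts -/
theorem continues_of [IsGalois K L] {P : Prop} {N₀ : ℕ} (g : Fin M.num → ℂ → ℂ)
    (h1 : ∀ j, MeromorphicOn (g j) Set.univ)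
    (h2 : ∀ j, ∀ s : ℂ, 1 < s.re → HasProd (fun w : HeightOneSpectrum (𝓞 K) =>
      (((M.rep j (Pool.Agent.Q92.AR.frob L w)).charpoly.roots.map fun z => 1 - z *
        cres M N₀ j w * (Ideal.absNorm w.asIdeal : ℂ) ^ (-s)).prod)⁻¹) (g j s))
    (h3 : ∀ j, ∀ s : ℂ, s ≠ 1 → AnalyticAt ℂ (g j) s)
    (h4 : P → ∀ j, AnalyticAt ℂ (g j) 1) {B : HeightOneSpectrum (𝓞 K) → Polynomial ℂ}
    (hgood : ∀ w : HeightOneSpectrum (𝓞 K), ¬ M.Bad w → ∀ z : ℂ,
      (B w).eval z = ((M.frob w (Pool.Agent.Q92.AR.frob L w)).map fun α => 1 - α * z).prod)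
    (hbad : ∀ w : HeightOneSpectrum (𝓞 K), M.Bad w →
      ∀ z : ℂ, (B w).eval z = 0 → (Ideal.absNorm w.asIdeal : ℝ) ^ (-((i : ℝ) / 2)) ≤ ‖z‖)
    {T : Finset (HeightOneSpectrum (𝓞 K))}
    (hT : ∀ w, w ∈ T ↔ (((2 * N₀ : ℕ) : 𝓞 K) ∈ w.asIdeal ∨ M.Bad w)) :
    Continues i B T P := by
  classical
  have hq1 : ∀ w : HeightOneSpectrum (𝓞 K), (1 : ℝ) < (Ideal.absNorm w.asIdeal : ℝ) :=
    Pool.Agent.W353.PV.one_lt_norm
  have hq0 : ∀ w : HeightOneSpectrum (𝓞 K), (Ideal.absNorm w.asIdeal : ℂ) ≠ 0 := by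
    intro w h0
    have h1 := hq1 w
    have h2 : (Ideal.absNorm w.asIdeal : ℝ) = 0 := by exact_mod_cast h0
    linarith
  have hweight : ∀ w : HeightOneSpectrum (𝓞 K), ∀ z : ℂ, (B w).eval z = 0 →
      (Ideal.absNorm w.asIdeal : ℝ) ^ (-((i : ℝ) / 2)) ≤ ‖z‖ := by
    intro w z hz
    by_cases hw : M.Bad w
    · exact hbad w hw z hz
    · rw [hgood w hw] at hz
      exact good_weight M hz
  set D : ℂ → ℂ := fun s => ∏ w ∈ T, (B w).eval ((Ideal.absNorm w.asIdeal : ℂ) ^ (-s)) with hD
  have hDd : Differentiable ℂ D := by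
    refine Differentiable.fun_finsetProd fun w _ => ?_
    refine (Polynomial.differentiable (B w)).comp ?_
    intro s
    exact (differentiableAt_id.neg).const_cpow (Or.inl (hq0 w))
  have hDne : ∀ s : ℂ, (i : ℝ) / 2 < s.re → D s ≠ 0 := by
    intro s hs
    rw [hD]
    simp only
    rw [Finset.prod_ne_zero_iff]
    intro w hw h0
    have h1 := hweight w _ h0
    have h2 : 0 < Ideal.absNorm w.asIdeal := by
      have := hq1 w
      exact_mod_cast (by linarith : (0 : ℝ) < (Ideal.absNorm w.asIdeal : ℝ))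
    rw [Complex.norm_natCast_cpow_of_pos h2, Complex.neg_re] at h1
    have h3 : (Ideal.absNorm w.asIdeal : ℝ) ^ (-s.re) <
        (Ideal.absNorm w.asIdeal : ℝ) ^ (-((i : ℝ) / 2)) :=
      Real.rpow_lt_rpow_of_exponent_lt (hq1 w) (by linarith)
    linarith
  set c : ℂ := (i : ℂ) / 2 with hc
  have hre : ∀ s : ℂ, (s - c).re = s.re - (i : ℝ) / 2 := fun s => by
    rw [Complex.sub_re, hc, half_re]
  have hsub : ∀ s₀ : ℂ, AnalyticAt ℂ (fun s : ℂ => s - c) s₀ := fun s₀ => by fun_prop
  have hana : ∀ s : ℂ, s ≠ c + 1 → AnalyticAt ℂ (fun s => ∏ j, g j (s - c)) s := by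
    intro s hs1
    refine Finset.analyticAt_fun_prod _ fun j _ => ?_
    refine AnalyticAt.fun_comp (g := g j) (f := fun s => s - c) ?_ (hsub s)
    refine h3 j _ fun h => hs1 ?_
    rw [← h]
    ring
  have hana1 : P → AnalyticAt ℂ (fun s => ∏ j, g j (s - c)) (c + 1) := by
    intro hP
    refine Finset.analyticAt_fun_prod _ fun j _ => ?_
    refine AnalyticAt.fun_comp (g := g j) (f := fun s => s - c) ?_ (hsub _)
    have h5 : c + 1 - c = 1 := by ring
    rw [h5]
    exact h4 hP j
  refine ⟨fun s => (∏ j, g j (s - c)) * (D s)⁻¹, fun s => ∏ j, g j (s - c), ?_, fun s => rfl,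
    hana, hana1, ?_, ?_, ?_⟩
  · intro s hs
    have hs' : 1 < (s - c).re := by rw [hre]; linarith
    have e1 : HasProd (fun w : HeightOneSpectrum (𝓞 K) => ∏ j,
        (((M.rep j (Pool.Agent.Q92.AR.frob L w)).charpoly.roots.map fun z => 1 - z *
          cres M N₀ j w * (Ideal.absNorm w.asIdeal : ℂ) ^ (-(s - c))).prod)⁻¹)
        (∏ j, g j (s - c)) := hasProd_prod fun j _ => h2 j (s - c) hs'
    have e2 : HasProd (fun w : HeightOneSpectrum (𝓞 K) =>
        if w ∈ T then ((B w).eval ((Ideal.absNorm w.asIdeal : ℂ) ^ (-s)))⁻¹ else 1)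
        (∏ w ∈ T, if w ∈ T then ((B w).eval ((Ideal.absNorm w.asIdeal : ℂ) ^ (-s)))⁻¹ else 1) :=
      hasProd_prod_of_ne_finset_one fun w hw => if_neg hw
    have e3 : (∏ w ∈ T, if w ∈ T then ((B w).eval ((Ideal.absNorm w.asIdeal : ℂ) ^ (-s)))⁻¹
        else 1) = (D s)⁻¹ := by
      rw [hD]
      simp only
      rw [← Finset.prod_inv_distrib]
      exact Finset.prod_congr rfl fun w hw => if_pos hw
    rw [e3] at e2
    refine (e1.mul e2).congr_fun fun w => ?_
    by_cases hw : w ∈ T
    · rw [if_pos hw]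
      have e4 : ∏ j, (((M.rep j (Pool.Agent.Q92.AR.frob L w)).charpoly.roots.map fun z => 1 - z *
          cres M N₀ j w * (Ideal.absNorm w.asIdeal : ℂ) ^ (-(s - c))).prod)⁻¹ = 1 := by
        refine Finset.prod_eq_one fun j _ => ?_
        have e5 : cres M N₀ j w = 0 := by
          by_cases hw2 : ((2 * N₀ : ℕ) : 𝓞 K) ∈ w.asIdeal
          · exact cres_two M hw2 j
          · rw [cres_eq M hw2 j]
            exact res_bad M (((hT w).1 hw).resolve_left hw2) j
        rw [e5]
        simp
      rw [e4, one_mul]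
    · have hw1 : ¬ M.Bad w := fun h => hw ((hT w).2 (Or.inr h))
      have hw2 : ((2 * N₀ : ℕ) : 𝓞 K) ∉ w.asIdeal := fun h => hw ((hT w).2 (Or.inl h))
      rw [if_neg hw, mul_one, hgood w hw1, Finset.prod_inv_distrib]
      congr 1
      unfold Motive.frob
      have e5 : ∀ (A : Fin M.num → Multiset ℂ) (f : ℂ → ℂ),
          ((∑ j, A j).map f).prod = ∏ j, ((A j).map f).prod := by
        intro A f
        have e6 : (∑ j, A j).map f = ∑ j, (A j).map f :=
          map_sum (Multiset.mapAddMonoidHom f) A Finset.univ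
        rw [e6, Multiset.prod_sum]
      rw [e5]
      refine Finset.prod_congr rfl fun j _ => ?_
      rw [Multiset.map_map, cres_eq M hw2 j]
      congr 1
      refine Multiset.map_congr rfl fun z _ => ?_
      simp only [Function.comp_apply]
      congr 1
      rw [neg_sub, sub_eq_add_neg, Complex.cpow_add _ _ (hq0 w)]
      ring
  · intro s _
    refine MeromorphicAt.mul ?_ (hDd.analyticAt s).meromorphicAt.inv
    refine MeromorphicAt.fun_prod fun j _ => ?_
    exact MeromorphicAt.comp_analyticAt (f := g j) (g := fun s => s - c)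
      (h1 j (s - c) (Set.mem_univ _)) (hsub s)
  · intro s hs hs1
    exact (hana s hs1).mul ((hDd.analyticAt s).inv (hDne s hs))
  · intro hP
    have hs : (i : ℝ) / 2 < (c + 1).re := by
      rw [Complex.add_re, hc, half_re, Complex.one_re]
      linarith
    exact (hana1 hP).mul ((hDd.analyticAt _).inv (hDne _ hs))

end aux

/-! ### The theorem -/

open Polynomial in
/-- **Theorem.** For every `N` there is an `m₀ > 0` such that for all multiples `m > 0` of `m₀`, all
number fields `k` of degree less than `m` and all `n > 0` the splitting field `L` of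
`(X ^ n - 1) (X ^ m - X - 1)` over `k` has the following properties.

* `L/k` is Galois, and every finite group of order at most `N` is the Galois group of `L/K` for a field
  `K` between `k` and `L` which contains the `n`-th roots of unity, with `L = K(α)` for every root `α` of
  `X ^ m - X - 1`.
* There is an integer `d ≠ 0` such that the following is true for all these `K` with `[L : K] ≤ N`. The
  extension `L/K` is unramified at all finite and infinite places. For all motives `M = ⨁_j ψ_j|_K ⊗ ρ_j`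
  of any weight `i` (with Hecke characters `ψ_j` of `k` of any infinity types and any conductor and any
  representations `ρ_j` of the group of `L/K`) the L-function of `M` is meromorphic in the plane,
  holomorphic for `Re s > i/2`, `s ≠ i/2 + 1`, and also holomorphic at `s = i/2 + 1` if `i` is odd or `M`
  satisfies `(⋆)`; the L-function without the Euler factors at a finite set `T` of primes, which divide
  `d` or the modulus of `M`, is holomorphic in the whole plane with the same exception; in particular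
  this is true for `L(H^i(X), s)` for all projective varieties `X` over `K` whose cohomology `H^i(X)` is
  such an `M`. The Euler factors at the primes which divide the modulus of the `ψ_j` may be arbitrary
  factors of weights at most `i`. -/
theorem result (N : ℕ) :
    ∃ m₀ : ℕ, 0 < m₀ ∧ ∀ m : ℕ, 0 < m → m₀ ∣ m →
      ∀ (k : Type) [Field k] [NumberField k], Module.finrank ℚ k < m → ∀ n : ℕ, 0 < n →
      ∀ (L : Type) [Field L] [NumberField L] [Algebra k L],
        IsSplittingField k L ((X ^ n - 1) * (X ^ m - X - 1) : k[X]) →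
        IsGalois k L ∧
        (∀ (G : Type) [Group G] [Finite G], Nat.card G ≤ N →
          ∃ K : IntermediateField k L, Free K n m ∧ Nonempty ((L ≃ₐ[K] L) ≃* G)) ∧
        ∃ d : ℕ, d ≠ 0 ∧ ∀ K : IntermediateField k L, Free K n m → Module.finrank K L ≤ N →
          Good K d := by
  classical
  obtain ⟨a, ha, hmain⟩ := Pool.Agent.H511.Sx.main N 1 one_pos
  obtain ⟨b, hb, hent⟩ := Pool.Agent.H511.Sx.entire N
  refine ⟨2 * (a * b * N.factorial * 3), by positivity, ?_⟩
  rintro m hm ⟨c, rfl⟩ k _ _ hk n hn L _ _ _ hL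
  have hm' : 2 * (a * b * N.factorial * 3) * c = 2 * (a * b * N.factorial * 3 * c) := by ring
  rw [hm'] at hk hL ⊢
  have hc : 0 < c := Nat.pos_of_ne_zero fun h0 => by rw [h0, mul_zero] at hm; exact lt_irrefl 0 hm
  have hpos : 0 < a * b * N.factorial * 3 * c := by positivity
  have hda : a ∣ a * b * N.factorial * 3 * c := ⟨b * N.factorial * 3 * c, by ring⟩
  have hdb : b ∣ a * b * N.factorial * 3 * c := ⟨a * N.factorial * 3 * c, by ring⟩
  have hdN : N.factorial ∣ a * b * N.factorial * 3 * c := ⟨a * b * 3 * c, by ring⟩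
  have hd3 : 3 ∣ a * b * N.factorial * 3 * c := ⟨a * b * N.factorial * c, by ring⟩
  set m' := a * b * N.factorial * 3 * c with hm''
  have h3 : 3 ≤ m' := Nat.le_of_dvd hpos hd3
  obtain ⟨hgal, hK, hG⟩ := hmain m' hpos hda k hk n hn L hL
  refine ⟨hgal, fun G _ _ hGN => hG G hGN, ?_⟩
  obtain ⟨N₀, hN₀, hen⟩ := Pool.Agent.H511.Sx.exists_enough k L
  refine ⟨2 * N₀, by omega, fun K hF hKN => ?_⟩
  obtain ⟨hun, hinf, -, -⟩ := hK K hF hKN
  obtain ⟨hcard, j, ι, hι, hj⟩ := Pool.Agent.H511.Sx.fields N m' h3 hdN k hk n hn L hL K hF hKN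
  refine ⟨hun, hinf, fun i M => ?_⟩
  have hfin : {w : HeightOneSpectrum (𝓞 K) | ((2 * N₀ : ℕ) : 𝓞 K) ∈ w.asIdeal ∨ M.Bad w}.Finite :=
    (two_finite hN₀).union (bad_finite M)
  have hT : ∀ w, w ∈ hfin.toFinset ↔ (((2 * N₀ : ℕ) : 𝓞 K) ∈ w.asIdeal ∨ M.Bad w) := fun w => by
    rw [Set.Finite.mem_toFinset]
    rfl
  choose g h1 h2 h3 h4 using fun j' =>
    hent m' hpos hdb k L K j ι hι hcard hj hun N₀ hN₀ hen _ (M.type j') _
      (Pool.Agent.H511.Sx.cut_hecke hN₀ (M.isHecke j').isHecke)
      (Pool.Agent.H511.Sx.cut_vanishes N₀ (M.char j')) (M.dim j') (M.rep j')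
  have h5 : (Odd i ∨ M.Star) → ∀ j, AnalyticAt ℂ (g j) 1 := by
    intro hP j
    refine h4 j ?_
    by_cases hnt : Pool.Agent.H511.Cm.NT (M.type j)
    · exact Or.inl hnt
    · unfold Pool.Agent.H511.Cm.NT at hnt
      push Not at hnt
      rcases hP with hodd | hstar
      · exfalso
        obtain ⟨φ⟩ : Nonempty (k →+* ℂ) := inferInstance
        have h6 := M.hodge j φ
        have h7 : M.type j φ = M.type j (ComplexEmbedding.conjugate φ) := hnt φ
        obtain ⟨m, hm⟩ := hodd
        omega
      · right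
        rintro v ⟨T', hv⟩
        refine hstar j (fun φ => hnt φ) v ⟨T' ∪ hfin.toFinset, fun w hw σ hσ => ?_⟩
        rw [Finset.mem_union, not_or] at hw
        have h7 := hv w hw.1 σ hσ
        have h8 : ((2 * N₀ : ℕ) : 𝓞 K) ∉ w.asIdeal := fun h => hw.2 ((hT w).2 (Or.inl h))
        rw [← cres_eq M h8 j]
        exact h7
  refine ⟨hfin.toFinset, fun w hw => (hT w).1 hw, fun B hB => ?_, fun l e X hi hX B hB => ?_⟩
  · exact continues_of M g h1 h2 h3 h5 (fun w hw z => hB.good w hw _ (frob_spec w) z) hB.bad hT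
  · refine continues_of M g h1 h2 h3 h5 (fun w hw z => ?_) hB.bad hT
    obtain ⟨A, hA, hBA⟩ := hB.good w hw
    rw [hBA, eigenvalues_unique hi hA (hX w hw _ (frob_spec w))]

end Pool.Agent.Results.MP_148101_nt.TwistedCMMotives
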